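import Mathlib
import Pool.Agent.RU.Defs

/-!
# Braid boxes in knotoid diagrams

Diagrams made of one interval, from its tail to its head, and some circles, with `n` crossings and
`k + 1` gates.  The sites, the ends (`Tip`), the ways (`Way`) to join the four ends at a crossing and
the arcs after the insertion of a letter (`shift`, `pushArc`) are those of `Pool.Agent.RU.Defs`.
-/

set_option autoImplicit false

namespace Pool.Agent.RKn

open Pool.RU LaurentPolynomial

/-- A diagram of an interval and circles with `n` crossings and `k + 1` gates, on any surface. The
gates and the crossings cut it into arcs. Two arcs have an end of their own which is at no gate and at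
no crossing, the tail and the head of the interval: `tail` is the end at which the arc beginning at the
tail arrives, `head` the end from which the arc to the head starts; `arc` fixes these two. Each other
arc joins two different ends. -/
structure KDiagram (k n : ℕ) where
  /-- The kind of a crossing: the sign which it has if both passages are run through upwards. -/
  kind : Fin n → ℤˣ
  /-- The other end of the arc with a given end; `arc p = p` if this arc leads to tail or head. -/
  arc : Tip k n → Tip k n
  /-- The end where the arc from the tail arrives. -/
  tail : Tip k n
  /-- The end where the arc to the head starts. -/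
  head : Tip k n
  arc_arc : ∀ p, arc (arc p) = p
  arc_eq : ∀ p, arc p = p ↔ p = tail ∨ p = head
  tail_ne : tail ≠ head

variable {k n : ℕ}

namespace KDiagram

/-- The number of components (the interval and the circles) when the crossings are replaced by the
ways `c`. -/
noncomputable def comps (D : KDiagram k n) (c : Fin n → Way) : ℕ :=
  Nat.card (Quot fun p q : Tip k n => q = join c p ∨ q = D.arc p)

/-- The bracket `∑ A ^ (#A - #B) (-A² - A⁻²) ^ (comps - 1)`, the sum running over the states, with
`A = T 1`. The state `s` smooths the crossing `x` in the way `along` if `s x = true` and in the way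
`turn` if `s x = false`; for a crossing of kind `1` the way `along` is the `A`-smoothing, for a crossing
of kind `-1` it is the `B`-smoothing. -/
noncomputable def bracket (D : KDiagram k n) : ℤ[T;T⁻¹] :=
  ∑ s : Fin n → Bool, (∏ x, T (if s x then (D.kind x : ℤ) else -(D.kind x : ℤ))) *
    (-T 2 - T (-2)) ^ (D.comps (fun x => if s x then .along else .turn) - 1)

/-- The diagram is a knotoid diagram: it has no circles, the interval is its only component. -/
def IsKnotoid (D : KDiagram k n) : Prop := D.comps (fun _ => .keep) = 1

/-- An orientation, the interval being directed from the tail to the head: `o p = true` if the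
oriented curve leaves the site at the end `p`. -/
def IsOrientation (D : KDiagram k n) (o : Tip k n → Bool) : Prop :=
  (∀ p, p ≠ D.tail → p ≠ D.head → o (D.arc p) = !o p) ∧
    (∀ p, o (join (fun _ => .keep) p) = !o p) ∧ o D.tail = false ∧ o D.head = true

/-- The writhe with respect to an orientation: the sign of a crossing is its kind if its passages
are run through in the same vertical direction, and the opposite otherwise. -/
def writhe (D : KDiagram k n) (o : Tip k n → Bool) : ℤ :=
  ∑ x, (D.kind x : ℤ) * if o (.inr (x, false), true) = o (.inr (x, true), true) then 1 else -1

/-- The normalized bracket `f = (-A³) ^ (-writhe) ⟨D⟩`. -/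
noncomputable def normalized (D : KDiagram k n) (o : Tip k n → Bool) : ℤ[T;T⁻¹] :=
  C (((-1 : ℤˣ) ^ D.writhe o : ℤˣ) : ℤ) * T (-3 * D.writhe o) * D.bracket

/-- The absolute value of `f` at `A = exp (π i / 4)`. -/
noncomputable def determinant (D : KDiagram k n) (o : Tip k n → Bool) : ℝ :=
  ‖LaurentPolynomial.eval₂ (Int.castRingHom ℂ) A8 (D.normalized o)‖

end KDiagram

theorem pushArc_eq (a : Fin k) (D : KDiagram k n) (p : Tip k (n + 1)) :
    pushArc a D.arc p = p ↔ p = shift a D.tail ∨ p = shift a D.head := by
  rcases tip_cases a p with ⟨q, rfl⟩ | ⟨i, rfl⟩ | ⟨i, rfl⟩
  · rw [pushArc_shift, (shift_inj a).eq_iff, (shift_inj a).eq_iff, (shift_inj a).eq_iff, D.arc_eq]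
  · have h1 : ∀ q : Tip k n, ((.inr (0, i), true) : Tip k (n + 1)) ≠ shift a q := by
      rintro ⟨g | ⟨x, j⟩, b⟩
      · cases b
        · by_cases h1 : g = a.castSucc
          · subst h1
            simp [shift]
          · by_cases h2 : g = a.succ
            · subst h2
              simp [shift, push_ne a]
            · simp [shift, h1, h2]
        · simp [shift]
      · simp only [shift]
        intro h
        have h2 := congrArg Prod.fst h
        simp only [Sum.inr.injEq, Prod.mk.injEq] at h2
        exact absurd h2.1 (Fin.succ_ne_zero x).symm
    rw [pushArc_new]
    constructor
    · intro h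
      simp at h
    · rintro (h | h)
      · exact absurd h (h1 _)
      · exact absurd h (h1 _)
  · have h1 : ∀ q : Tip k n,
        ((.inl (if i then a.castSucc else a.succ), false) : Tip k (n + 1)) ≠ shift a q := by
      rintro ⟨g | ⟨x, j⟩, b⟩
      · cases b
        · by_cases h1 : g = a.castSucc
          · subst h1
            simp [shift]
          · by_cases h2 : g = a.succ
            · subst h2
              simp [shift, push_ne a]
            · simp only [shift, h1, h2, if_false]
              intro h
              have h3 := congrArg Prod.fst h
              simp only [Sum.inl.injEq] at h3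
              cases i
              · exact h2 h3.symm
              · exact h1 h3.symm
        · simp [shift]
      · simp [shift]
    rw [pushArc_gate]
    constructor
    · intro h
      simp at h
    · rintro (h | h)
      · exact absurd h (h1 _)
      · exact absurd h (h1 _)

namespace KDiagram

/-- Insert the letter `σ_a ^ ε` of the braid group on `k + 1` strands: a new crossing `0` of kind
`ε` between the strands at the gates `a` and `a + 1`, just below the gates. -/
def push (D : KDiagram k n) (a : Fin k) (ε : ℤˣ) : KDiagram k (n + 1) where
  kind := Fin.cons ε D.kind
  arc := pushArc a D.arc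
  tail := shift a D.tail
  head := shift a D.head
  arc_arc := pushArc_inv a D.arc D.arc_arc
  arc_eq := pushArc_eq a D
  tail_ne := fun h => D.tail_ne (shift_inj a h)

/-- Insert a braid word: a list of letters `(a, ε)`, standing for `σ_a ^ ε`; the first letter is
the crossing next to the gates. -/
def insert (D : KDiagram k n) : (w : List (Fin k × ℤˣ)) → KDiagram k (n + w.length)
  | [] => D
  | l :: w => (insert D w).push l.1 l.2

end KDiagram

end Pool.Agent.RKn
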