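import Mathlib
import Pool.Agent.RKn.Defs
import Pool.Agent.RU.Orient

/-!
# The closure of a knotoid diagram

Joining the head to the tail by an arc changes neither the number of the components of a state nor
the writhe.
-/

set_option autoImplicit false

namespace Pool.Agent.RKn

open Pool.RU LaurentPolynomial

variable {k n : ℕ}

namespace KDiagram

/-- The arcs of the closure. -/
def closeArc (D : KDiagram k n) (p : Tip k n) : Tip k n :=
  if p = D.tail then D.head else if p = D.head then D.tail else D.arc p

theorem closeArc_tail (D : KDiagram k n) : D.closeArc D.tail = D.head := by simp [closeArc]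

theorem closeArc_head (D : KDiagram k n) : D.closeArc D.head = D.tail := by
  simp [closeArc, D.tail_ne.symm]

theorem closeArc_of_ne (D : KDiagram k n) {p : Tip k n} (h1 : p ≠ D.tail) (h2 : p ≠ D.head) :
    D.closeArc p = D.arc p := by simp [closeArc, h1, h2]

theorem arc_ne_tail (D : KDiagram k n) {p : Tip k n} (h1 : p ≠ D.tail) : D.arc p ≠ D.tail := by
  intro h
  apply h1
  rw [← D.arc_arc p, h]
  exact (D.arc_eq _).2 (Or.inl rfl)

theorem arc_ne_head (D : KDiagram k n) {p : Tip k n} (h1 : p ≠ D.head) : D.arc p ≠ D.head := by
  intro h
  apply h1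
  rw [← D.arc_arc p, h]
  exact (D.arc_eq _).2 (Or.inr rfl)

/-- The closure of a knotoid diagram: the head is joined to the tail by an arc. -/
def close (D : KDiagram k n) : Diagram k n where
  kind := D.kind
  arc := D.closeArc
  arc_arc := by
    intro p
    by_cases h1 : p = D.tail
    · rw [h1, closeArc_tail, closeArc_head]
    by_cases h2 : p = D.head
    · rw [h2, closeArc_head, closeArc_tail]
    rw [closeArc_of_ne D h1 h2, closeArc_of_ne D (D.arc_ne_tail h1) (D.arc_ne_head h2), D.arc_arc]
  arc_ne := by
    intro p
    by_cases h1 : p = D.tail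
    · rw [h1, closeArc_tail]
      exact D.tail_ne.symm
    by_cases h2 : p = D.head
    · rw [h2, closeArc_head]
      exact D.tail_ne
    rw [closeArc_of_ne D h1 h2]
    intro h
    rcases (D.arc_eq p).1 h with h3 | h3
    · exact h1 h3
    · exact h2 h3

end KDiagram

theorem join_join (c : Fin n → Way) (p : Tip k n) : join c (join c p) = p := by
  rcases p with ⟨a | ⟨x, i⟩, b⟩
  · simp [join]
  · rcases h : c x <;> simp [join, h]

theorem join_ne (c : Fin n → Way) (p : Tip k n) : join c p ≠ p := by
  rcases p with ⟨a | ⟨x, i⟩, b⟩
  · cases b <;> simp [join]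
  · cases i <;> cases b <;> rcases h : c x <;> simp [join, h]

section parity

variable {X : Type} [Fintype X]

/-- Two involutions, the first without fixed points, the second with exactly two fixed points `u`
and `v`: then `u` and `v` are in the same orbit. -/
theorem same_orbit (f g : X → X) (hf : ∀ p, f (f p) = p) (hf' : ∀ p, f p ≠ p)
    (hg : ∀ p, g (g p) = p) (u v : X) (hg' : ∀ p, g p = p ↔ p = u ∨ p = v) :
    Relation.EqvGen (fun p q => q = f p ∨ q = g p) u v := by
  classical
  set R : X → X → Prop := Relation.EqvGen (fun p q => q = f p ∨ q = g p) with hR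
  by_contra huv
  have hfR : ∀ p, R u p → R u (f p) := fun p hp =>
    Relation.EqvGen.trans _ _ _ hp (Relation.EqvGen.rel _ _ (Or.inl rfl))
  have hgR : ∀ p, R u p → R u (g p) := fun p hp =>
    Relation.EqvGen.trans _ _ _ hp (Relation.EqvGen.rel _ _ (Or.inr rfl))
  let S : Finset X := Finset.univ.filter fun p => R u p
  have hS : ∀ p, p ∈ S ↔ R u p := fun p => by simp [S]
  have h1 : ∑ _p ∈ S, (1 : ZMod 2) = 0 := by
    refine Finset.sum_involution (fun p _ => f p) ?_ ?_ ?_ ?_
    · intro p _
      decide
    · intro p _ _
      exact hf' p
    · intro p hp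
      exact (hS _).2 (hfR p ((hS p).1 hp))
    · intro p _
      exact hf p
  have hu : u ∈ S := (hS u).2 (Relation.EqvGen.refl _)
  have hgu : g u = u := (hg' u).2 (Or.inl rfl)
  have h2 : ∑ _p ∈ S.erase u, (1 : ZMod 2) = 0 := by
    refine Finset.sum_involution (fun p _ => g p) ?_ ?_ ?_ ?_
    · intro p _
      decide
    · intro p hp _ h
      rcases (hg' p).1 h with h3 | h3
      · exact (Finset.mem_erase.1 hp).1 h3
      · exact huv (h3 ▸ (hS p).1 (Finset.mem_erase.1 hp).2)
    · intro p hp
      have hp' := Finset.mem_erase.1 hp
      refine Finset.mem_erase.2 ⟨fun h => hp'.1 ?_, (hS _).2 (hgR p ((hS p).1 hp'.2))⟩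
      rw [← hg p, h, hgu]
    · intro p _
      exact hg p
  have h3 := Finset.sum_erase_add S (fun _ => (1 : ZMod 2)) hu
  rw [h2, h1] at h3
  revert h3
  decide

end parity

namespace KDiagram

theorem comps_close (D : KDiagram k n) (c : Fin n → Way) : D.comps c = D.close.curves c := by
  unfold comps Diagram.curves
  have key : ∀ p q : Tip k n,
      Relation.EqvGen (fun p q : Tip k n => q = join c p ∨ q = D.arc p) p q ↔
      Relation.EqvGen (fun p q : Tip k n => q = join c p ∨ q = D.close.arc p) p q := by
    have hth := same_orbit (join c) D.arc (join_join c) (join_ne c) D.arc_arc D.tail D.head D.arc_eq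
    intro p q
    constructor
    · intro h
      induction h with
      | rel x y h =>
        rcases h with h | h
        · exact Relation.EqvGen.rel _ _ (Or.inl h)
        · by_cases h1 : x = D.tail
          · rw [h1, (D.arc_eq _).2 (Or.inl rfl)] at h
            rw [h, h1]
            exact Relation.EqvGen.refl _
          by_cases h2 : x = D.head
          · rw [h2, (D.arc_eq _).2 (Or.inr rfl)] at h
            rw [h, h2]
            exact Relation.EqvGen.refl _
          refine Relation.EqvGen.rel _ _ (Or.inr ?_)
          rw [h]
          exact (closeArc_of_ne D h1 h2).symm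
      | refl x => exact Relation.EqvGen.refl _
      | symm x y _ ih => exact Relation.EqvGen.symm _ _ ih
      | trans x y z _ _ ih1 ih2 => exact Relation.EqvGen.trans _ _ _ ih1 ih2
    · intro h
      induction h with
      | rel x y h =>
        rcases h with h | h
        · exact Relation.EqvGen.rel _ _ (Or.inl h)
        · by_cases h1 : x = D.tail
          · have h3 : y = D.head := by rw [h, h1]; exact closeArc_tail D
            rw [h3, h1]
            exact hth
          by_cases h2 : x = D.head
          · have h3 : y = D.tail := by rw [h, h2]; exact closeArc_head D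
            rw [h3, h2]
            exact Relation.EqvGen.symm _ _ hth
          refine Relation.EqvGen.rel _ _ (Or.inr ?_)
          rw [h]
          exact closeArc_of_ne D h1 h2
      | refl x => exact Relation.EqvGen.refl _
      | symm x y _ ih => exact Relation.EqvGen.symm _ _ ih
      | trans x y z _ _ ih1 ih2 => exact Relation.EqvGen.trans _ _ _ ih1 ih2
  refine Nat.card_congr ⟨Quot.lift (fun p => Quot.mk _ p) ?_, Quot.lift (fun p => Quot.mk _ p) ?_,
    ?_, ?_⟩
  · intro p q h
    exact Quot.eqvGen_sound ((key p q).1 (Relation.EqvGen.rel _ _ h))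
  · intro p q h
    exact Quot.eqvGen_sound ((key p q).2 (Relation.EqvGen.rel _ _ h))
  · rintro ⟨p⟩
    rfl
  · rintro ⟨p⟩
    rfl

theorem bracket_close (D : KDiagram k n) : D.bracket = D.close.bracket := by
  unfold bracket Diagram.bracket
  refine Finset.sum_congr rfl fun s _ => ?_
  rw [comps_close]
  rfl

theorem isKnotoid_iff (D : KDiagram k n) : D.IsKnotoid ↔ D.close.IsKnot := by
  unfold IsKnotoid Diagram.IsKnot
  rw [comps_close]

theorem isOrientation_close (D : KDiagram k n) {o : Tip k n → Bool} (h : D.IsOrientation o) :
    D.close.IsOrientation o := by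
  refine ⟨fun p => ?_, h.2.1⟩
  by_cases h1 : p = D.tail
  · have h3 : D.close.arc p = D.head := by rw [h1]; exact closeArc_tail D
    rw [h3, h1, h.2.2.1, h.2.2.2]
    rfl
  by_cases h2 : p = D.head
  · have h3 : D.close.arc p = D.tail := by rw [h2]; exact closeArc_head D
    rw [h3, h2, h.2.2.1, h.2.2.2]
    rfl
  have h3 : D.close.arc p = D.arc p := closeArc_of_ne D h1 h2
  rw [h3]
  exact h.1 p h1 h2

theorem exists_orientation (D : KDiagram k n) : ∃ o, D.IsOrientation o := by
  obtain ⟨o, ho1, ho2⟩ := Pool.RU.exists_orientation D.close
  have hh : o D.head = !o D.tail := by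
    have h := ho1 D.tail
    have h3 : D.close.arc D.tail = D.head := closeArc_tail D
    rw [h3] at h
    exact h
  have harc : ∀ p, p ≠ D.tail → p ≠ D.head → o (D.arc p) = !o p := by
    intro p h1 h2
    have h := ho1 p
    have h3 : D.close.arc p = D.arc p := closeArc_of_ne D h1 h2
    rw [h3] at h
    exact h
  cases ht : o D.tail
  · exact ⟨o, harc, ho2, ht, by rw [hh, ht]; rfl⟩
  · refine ⟨fun p => !o p, fun p h1 h2 => ?_, fun p => ?_, ?_, ?_⟩
    · simp only [harc p h1 h2]
    · simp only [ho2 p]
    · simp only [ht, Bool.not_true]
    · simp only [hh, ht, Bool.not_true, Bool.not_false]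

theorem normalized_close (D : KDiagram k n) (o : Tip k n → Bool) :
    D.normalized o = D.close.normalized o := by
  unfold normalized Diagram.normalized
  rw [bracket_close]
  rfl

theorem determinant_close (D : KDiagram k n) (o : Tip k n → Bool) :
    D.determinant o = D.close.determinant o := by
  unfold determinant Diagram.determinant
  rw [normalized_close]

theorem close_push (D : KDiagram k n) (a : Fin k) (ε : ℤˣ) :
    (D.push a ε).close = D.close.push a ε := by
  have h : (D.push a ε).closeArc = pushArc a D.closeArc := by
    funext p
    rcases tip_cases a p with ⟨q, rfl⟩ | ⟨i, rfl⟩ | ⟨i, rfl⟩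
    · rw [pushArc_shift]
      by_cases h1 : q = D.tail
      · rw [h1, closeArc_tail]
        exact closeArc_tail (D.push a ε)
      by_cases h2 : q = D.head
      · rw [h2, closeArc_head]
        exact closeArc_head (D.push a ε)
      rw [closeArc_of_ne D h1 h2, closeArc_of_ne (D.push a ε) (fun h => h1 (shift_inj a h))
        (fun h => h2 (shift_inj a h))]
      exact pushArc_shift a D.arc q
    · have hne : (D.push a ε).arc (.inr (0, i), true) ≠ (.inr (0, i), true) := by
        intro h
        have h' : pushArc a D.arc (.inr (0, i), true) = (.inr (0, i), true) := h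
        rw [pushArc_new] at h'
        simp at h'
      rw [pushArc_new, closeArc_of_ne (D.push a ε)
        (fun h => hne (((D.push a ε).arc_eq _).2 (Or.inl h)))
        (fun h => hne (((D.push a ε).arc_eq _).2 (Or.inr h)))]
      exact pushArc_new a D.arc i
    · have hne : (D.push a ε).arc (.inl (if i then a.castSucc else a.succ), false) ≠
          (.inl (if i then a.castSucc else a.succ), false) := by
        intro h
        have h' : pushArc a D.arc (.inl (if i then a.castSucc else a.succ), false) =
          (.inl (if i then a.castSucc else a.succ), false) := h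
        rw [pushArc_gate] at h'
        simp at h'
      rw [pushArc_gate, closeArc_of_ne (D.push a ε)
        (fun h => hne (((D.push a ε).arc_eq _).2 (Or.inl h)))
        (fun h => hne (((D.push a ε).arc_eq _).2 (Or.inr h)))]
      exact pushArc_gate a D.arc i
  unfold close Diagram.push
  congr 1

theorem close_insert (D : KDiagram k n) : ∀ w : List (Fin k × ℤˣ),
    (D.insert w).close = D.close.insert w
  | [] => rfl
  | l :: w => by
    change ((D.insert w).push l.1 l.2).close = (D.close.insert w).push l.1 l.2
    rw [close_push, close_insert D w]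

end KDiagram

end Pool.Agent.RKn
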